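import Pool.Agent.Q249.SF.Stm

set_option autoImplicit false

open MeasureTheory Real Set Filter Topology
open scoped FourierTransform SchwartzMap ENNReal

namespace Q249.SF

theorem tendsto_top_of_mono {x : ℤ → ℝ} (hm : Monotone x)
    (h : Tendsto (fun n => |x n|) cofinite atTop) : Tendsto x atTop atTop := by
  have h1 : Tendsto (fun n => |x n|) atTop atTop :=
    h.mono_left (by rw [Int.cofinite_eq]; exact le_sup_right)
  rw [tendsto_atTop] at h1 ⊢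
  intro b
  filter_upwards [h1 (max b (|x 0| + 1)), eventually_ge_atTop 0] with n hn hn0
  have h2 : x 0 ≤ x n := hm hn0
  have h3 : |x 0| + 1 ≤ |x n| := le_trans (le_max_right _ _) hn
  have h4 : b ≤ |x n| := le_trans (le_max_left _ _) hn
  rcases le_or_gt 0 (x n) with h5 | h5
  · rwa [abs_of_nonneg h5] at h4
  · rw [abs_of_neg h5] at h3
    have := neg_abs_le (x 0)
    linarith

theorem tendsto_bot_of_mono {x : ℤ → ℝ} (hm : Monotone x)
    (h : Tendsto (fun n => |x n|) cofinite atTop) : Tendsto x atBot atBot := by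
  have h1 : Tendsto (fun n => |x n|) atBot atTop :=
    h.mono_left (by rw [Int.cofinite_eq]; exact le_sup_left)
  rw [tendsto_atTop] at h1
  rw [tendsto_atBot]
  intro b
  filter_upwards [h1 (max (-b) (|x 0| + 1)), eventually_le_atBot 0] with n hn hn0
  have h2 : x n ≤ x 0 := hm hn0
  have h3 : |x 0| + 1 ≤ |x n| := le_trans (le_max_right _ _) hn
  have h4 : -b ≤ |x n| := le_trans (le_max_left _ _) hn
  rcases le_or_gt 0 (x n) with h5 | h5
  · rw [abs_of_nonneg h5] at h3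
    have := le_abs_self (x 0)
    linarith
  · rw [abs_of_neg h5] at h4
    linarith

theorem nodes_of {p : ℝ} {x : ℤ → ℝ} (hm : Monotone x)
    (h : Tendsto (fun n => |x n|) cofinite atTop) {η θ : ℝ} (hη : 2 * η ≤ θ)
    (hg : ∀ᶠ n in cofinite, |x n| ^ (p - 1) * |x (n + 1) - x n| ≤ η) : Nodes (p - 1) θ x := by
  refine ⟨hm, tendsto_top_of_mono hm h, tendsto_bot_of_mono hm h, ?_⟩
  rw [eventually_cofinite] at hg
  obtain ⟨T, hT⟩ := (hg.image fun n => |x n|).bddAbove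
  refine ⟨T + 1, fun n hn => ?_⟩
  have h1 : |x n| ^ (p - 1) * |x (n + 1) - x n| ≤ η := by
    by_contra hc
    have : |x n| ≤ T := hT ⟨n, hc, rfl⟩
    linarith
  have h2 : 0 ≤ x (n + 1) - x n := sub_nonneg.2 (hm (by omega))
  rw [abs_of_nonneg h2] at h1
  linarith

theorem sn_mono {k l : ℕ} (h : k ≤ l) (c : Rapid) : Rapid.sn k c ≤ Rapid.sn l c := by
  refine Rapid.sn_le c k _ fun n => le_trans ?_ (Rapid.le_sn c l n)
  have : (1 : ℝ) ≤ 1 + |(n : ℝ)| := by linarith [abs_nonneg (n : ℝ)]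
  gcongr

/-- a neighbourhood of zero contains a ball of some seminorm -/
theorem nhds_rapid {V : Set Rapid} (hV : V ∈ 𝓝 (0 : Rapid)) :
    ∃ (k : ℕ) (r : ℝ), 0 < r ∧ ∀ c : Rapid, Rapid.sn k c < r → c ∈ V := by
  obtain ⟨s, r, hr, hs⟩ := (Rapid.withSeminorms.mem_nhds_iff 0 V).1 hV
  refine ⟨s.sup id, r, hr, fun c hc => hs ?_⟩
  rw [Seminorm.mem_ball, sub_zero]
  refine lt_of_le_of_lt ?_ hc
  refine Seminorm.finset_sup_apply_le (apply_nonneg _ _) fun i hi => ?_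
  exact sn_mono (Finset.le_sup (f := id) hi) c

theorem l2_bound {x y : ℤ → ℝ} {R : 𝓢(ℝ, ℂ) →ₗ[ℂ] Rapid × Rapid} (hR : IsAnalysis x y R)
    (he : Topology.IsEmbedding R) :
    ∃ (C : ℝ) (k : ℕ), ∀ (f : 𝓢(ℝ, ℂ)) (B : ℝ), 0 ≤ B →
    (∀ n : ℤ, (1 + |(n : ℝ)|) ^ k * ‖f (x n)‖ ≤ B) →
    (∀ n : ℤ, (1 + |(n : ℝ)|) ^ k * ‖(𝓕 f : 𝓢(ℝ, ℂ)) (y n)‖ ≤ B) →
    ∫ t, ‖f t‖ ^ 2 ≤ C * B ^ 2 := by
  set P : 𝓢(ℝ, ℂ) → ℝ := fun f => ‖f.toLp 2 volume‖ with hP
  have hPc : Continuous P :=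
    continuous_norm.comp (SchwartzMap.toLpCLM ℂ ℂ 2 (volume : Measure ℝ)).continuous
  have hP0 : P 0 = 0 := by
    have : (0 : 𝓢(ℝ, ℂ)).toLp 2 (volume : Measure ℝ) = 0 :=
      map_zero (SchwartzMap.toLpCLM ℂ ℂ 2 (volume : Measure ℝ))
    rw [hP]; simp only [this, norm_zero]
  have hPs : ∀ (t : ℝ) (f : 𝓢(ℝ, ℂ)), 0 ≤ t → P ((t : ℂ) • f) = t * P f := by
    intro t f ht
    have : ((t : ℂ) • f).toLp 2 (volume : Measure ℝ) = (t : ℂ) • f.toLp 2 volume :=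
      map_smul (SchwartzMap.toLpCLM ℂ ℂ 2 (volume : Measure ℝ)) (t : ℂ) f
    simp only [hP, this, norm_smul, Complex.norm_real, Real.norm_eq_abs, abs_of_nonneg ht]
  have hPi : ∀ f : 𝓢(ℝ, ℂ), ∫ t, ‖f t‖ ^ 2 = P f ^ 2 := by
    intro f
    have h1 := SchwartzMap.norm_toLp' (f := f) (p := 2) (μ := (volume : Measure ℝ)) (by norm_num)
      (by norm_num)
    rw [hP]
    simp only
    rw [h1]
    have h2 : 0 ≤ ∫ t, ‖f t‖ ^ 2 := integral_nonneg fun t => by positivity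
    have h3 : (∫ t, ‖f t‖ ^ (2 : ℝ≥0∞).toReal) = ∫ t, ‖f t‖ ^ 2 := by
      simp
    rw [h3, ← Real.rpow_natCast, ← Real.rpow_mul h2]
    norm_num
  -- a neighbourhood on which `P < 1`
  have hU : {f : 𝓢(ℝ, ℂ) | P f < 1} ∈ 𝓝 (0 : 𝓢(ℝ, ℂ)) := by
    apply (isOpen_lt hPc continuous_const).mem_nhds
    simp only [Set.mem_ofPred_eq, hP0]; norm_num
  rw [he.isInducing.nhds_eq_comap, map_zero, mem_comap] at hU
  obtain ⟨V, hV, hVU⟩ := hU
  have hV' : V ∈ 𝓝 ((0 : Rapid), (0 : Rapid)) := hV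
  rw [nhds_prod_eq, mem_prod_iff] at hV'
  obtain ⟨V1, hV1, V2, hV2, hV12⟩ := hV'
  obtain ⟨k1, r1, hr1, h1⟩ := nhds_rapid hV1
  obtain ⟨k2, r2, hr2, h2⟩ := nhds_rapid hV2
  set k := max k1 k2 with hk
  set r := min r1 r2 with hr
  have hr0 : 0 < r := lt_min hr1 hr2
  have key : ∀ f : 𝓢(ℝ, ℂ), Rapid.sn k (R f).1 < r → Rapid.sn k (R f).2 < r → P f < 1 := by
    intro f ha hb
    have : R f ∈ V := hV12 ⟨h1 _ (lt_of_le_of_lt (sn_mono (le_max_left _ _) _)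
      (lt_of_lt_of_le ha (min_le_left _ _))), h2 _ (lt_of_le_of_lt (sn_mono (le_max_right _ _) _)
      (lt_of_lt_of_le hb (min_le_right _ _)))⟩
    exact hVU this
  have key2 : ∀ (f : 𝓢(ℝ, ℂ)) (B : ℝ), 0 < B →
      (∀ n : ℤ, (1 + |(n : ℝ)|) ^ k * ‖f (x n)‖ ≤ B) →
      (∀ n : ℤ, (1 + |(n : ℝ)|) ^ k * ‖(𝓕 f : 𝓢(ℝ, ℂ)) (y n)‖ ≤ B) → P f ≤ 2 * B / r := by
    intro f B hB ha hb
    have e1 : Rapid.sn k (R f).1 ≤ B := Rapid.sn_le _ _ _ fun n => by
      rw [(hR f n).1]; exact ha n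
    have e2 : Rapid.sn k (R f).2 ≤ B := Rapid.sn_le _ _ _ fun n => by
      rw [(hR f n).2]; exact hb n
    set t : ℝ := r / (2 * B) with ht
    have ht0 : 0 < t := by positivity
    have e3 : ∀ c : Rapid, Rapid.sn k c ≤ B → Rapid.sn k ((t : ℂ) • c) < r := by
      intro c hc
      rw [map_smul_eq_mul, Complex.norm_real, Real.norm_eq_abs, abs_of_pos ht0]
      calc t * Rapid.sn k c ≤ t * B := by gcongr
        _ = r / 2 := by rw [ht]; field_simp
        _ < r := by linarith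
    have e4 : P ((t : ℂ) • f) < 1 := by
      apply key
      · rw [map_smul]; exact e3 _ e1
      · rw [map_smul]; exact e3 _ e2
    rw [hPs t f ht0.le, ht] at e4
    rw [le_div_iff₀ hr0]
    have : r / (2 * B) * P f * (2 * B) < 1 * (2 * B) := mul_lt_mul_of_pos_right e4 (by positivity)
    have e5 : r / (2 * B) * P f * (2 * B) = P f * r := by field_simp
    linarith
  refine ⟨(2 / r) ^ 2, k, fun f B hB ha hb => ?_⟩
  rw [hPi f, ← mul_pow]
  have hPn : 0 ≤ P f := norm_nonneg _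
  have hle : P f ≤ 2 / r * B := by
    refine le_of_forall_pos_le_add fun ε hε => ?_
    have := key2 f (B + ε * r / 2) (by positivity) (fun n => (ha n).trans (by
      have : 0 < ε * r / 2 := by positivity
      linarith)) (fun n => (hb n).trans (by
      have : 0 < ε * r / 2 := by positivity
      linarith))
    refine this.trans (le_of_eq ?_)
    field_simp
  exact pow_le_pow_left₀ hPn hle 2

theorem t_FIN : S_WIN → S_AT1 → S_AT2 → S_AT3 → S_KEY → S_DIA → S_SUM → S_FIN := by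
  intro hWIN hAT1 hAT2 hAT3 hKEY hDIA hSUM p q x y hp hq hpq hs R hR he
  obtain ⟨hmx, hmy, htx, hty, ⟨η1, hη1, hg1⟩, η2, hη2, hg2⟩ := hs
  have hαβ : (p - 1) * (q - 1) = 1 := by
    have hp0 : p ≠ 0 := by linarith
    have hq0 : q ≠ 0 := by linarith
    field_simp at hpq
    nlinarith
  set θ : ℝ := max (1 / 2) (max (2 * η1) (2 * η2)) with hθ
  have hθ0 : 0 < θ := lt_of_lt_of_le (by norm_num) (le_max_left _ _)
  have hθ1 : θ < 1 := by
    rw [hθ, max_lt_iff, max_lt_iff]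
    refine ⟨by norm_num, by linarith, by linarith⟩
  have hn1 : Nodes (p - 1) θ x :=
    nodes_of hmx htx (le_trans (le_max_left _ _) (le_max_right _ _)) hg1
  have hn2 : Nodes (q - 1) θ y :=
    nodes_of hmy hty (le_trans (le_max_right _ _) (le_max_right _ _)) hg2
  have hmap : ∀ f : 𝓢(ℝ, ℂ), (fun n => f (x n)) ∈ rapidSub ∧
      (fun n => (𝓕 f : 𝓢(ℝ, ℂ)) (y n)) ∈ rapidSub := by
    intro f
    constructor
    · have : (fun n => f (x n)) = (R f).1.1 := by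
        funext n; exact ((hR f n).1).symm
      rw [this]; exact (R f).1.2
    · have : (fun n => (𝓕 f : 𝓢(ℝ, ℂ)) (y n)) = (R f).2.1 := by
        funext n; exact ((hR f n).2).symm
      rw [this]; exact (R f).2.2
  obtain ⟨χ, θ', hw⟩ := hWIN
  obtain ⟨φ, c, haf, hsn⟩ := hAT1 χ θ' hw
  have hat : IsAtoms φ c := ⟨hAT2 χ θ' φ c hw haf, hsn, (hAT3 χ θ' φ c hw haf).1,
    (hAT3 χ θ' φ c hw haf).2⟩
  obtain ⟨b, e, τ, hτ, hk⟩ := hKEY (p - 1) (q - 1) θ x y (by linarith) hαβ hθ0 hθ1 hn1 hn2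
    (l2_bound hR he) φ c hat
  obtain ⟨m, hm1, hm2⟩ := hDIA x y hmap c b e τ hτ hk
  obtain ⟨L, hL⟩ := hSUM φ m hsn hm1
  refine ⟨L, fun f => ?_⟩
  ext t
  have h1 := hL (R f) t
  have h2 := hat.1 f t
  have h3 : (fun a => m a (R f) * φ a t) = fun a => c a f * φ a t := by
    funext a
    rw [hm2 a f (R f) (fun n => (hR f n).1) (fun n => (hR f n).2)]
  rw [h3] at h1
  exact h1.unique h2

end Q249.SF
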