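import Mathlib

/-!
# Project SF: strong Schwartz frames from supercritical Fourier sampling pairs (MP_f612df_an)

Full positive answer. Notation: `ker u = exp (-2 π u²)` is the square of the Gaussian window
`exp (-π u²)`, `av w`, `av2 w` are the averages of a weight `w` against `ker u` and `u² ker u`.
`Slope K w`: `w` is a continuous nonnegative function of `|x|`, nondecreasing in `|x|`, with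
`w (c x) ≤ c ^ K w x` for `c ≥ 1`. All constants below are uniform over the class `Slope K`.
-/

set_option autoImplicit false

open MeasureTheory Real Set Filter Topology
open scoped FourierTransform SchwartzMap

namespace Q249.SF

/-- weights: monotone functions of `|x|` with controlled growth -/
def Slope (K : ℕ) (w : ℝ → ℝ) : Prop :=
  Continuous w ∧ (∀ x, 0 ≤ w x) ∧ (∀ x y, |x| ≤ |y| → w x ≤ w y) ∧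
    ∀ c x, 1 ≤ c → w (c * x) ≤ c ^ K * w x

/-- polynomial growth -/
def PolyGr (w : ℝ → ℝ) : Prop := ∃ (C : ℝ) (k : ℕ), ∀ x, w x ≤ C * (1 + |x|) ^ k

/-- the square of the Gaussian window -/
noncomputable def ker (u : ℝ) : ℝ := Real.exp (-2 * π * u ^ 2)

/-- Gaussian average of a weight -/
noncomputable def av (w : ℝ → ℝ) (y : ℝ) : ℝ := ∫ u, w (y + u) * ker u

/-- second moment Gaussian average of a weight -/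
noncomputable def av2 (w : ℝ → ℝ) (y : ℝ) : ℝ := ∫ u, w (y + u) * (u ^ 2 * ker u)

/-- total mass of `ker` -/
noncomputable def k0 : ℝ := ∫ u, ker u

/-- `w x |x|^(2 γ)` -/
noncomputable def up (γ : ℝ) (w : ℝ → ℝ) (x : ℝ) : ℝ := w x * |x| ^ (2 * γ)

/-- the coefficient of `|f|²` -/
noncomputable def PP (δ γ : ℝ) (w : ℝ → ℝ) (y : ℝ) : ℝ :=
  (1 + δ) * av (up γ w) y + (1 + 1 / δ) * av2 w y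

/-- nodes of exponent `γ`: monotone, exhausting the line, gaps at most `θ/2 |x_n|^(-γ)` far out -/
def Nodes (γ θ : ℝ) (x : ℤ → ℝ) : Prop :=
  Monotone x ∧ Tendsto x atTop atTop ∧ Tendsto x atBot atBot ∧
    ∃ T : ℝ, ∀ n, T ≤ |x n| → |x n| ^ γ * (x (n + 1) - x n) ≤ θ / 2

/-- the discrete weight `(1+|n|)^b min(1, (1+|n|)^e / N)^r` -/
noncomputable def dw (b e : ℕ) (N : ℝ) (r : ℕ) (n : ℤ) : ℝ :=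
  (1 + |(n : ℝ)|) ^ b * min 1 ((1 + |(n : ℝ)|) ^ e / N) ^ r

/-! ### Elementary lemmas -/

/-- WIR. Wirtinger's inequality with end point values. -/
def S_WIR : Prop := ∀ (f f' : ℝ → ℂ), (∀ x, HasDerivAt f (f' x) x) → Continuous f' →
  ∀ (a b δ : ℝ), a ≤ b → 0 < δ →
    ∫ x in a..b, ‖f x‖ ^ 2 ≤ (1 + δ) * ((b - a) / π) ^ 2 * (∫ x in a..b, ‖f' x‖ ^ 2) +
      (1 + 1 / δ) * (b - a) * (‖f a‖ ^ 2 + ‖f b‖ ^ 2)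

/-- GRO. Nodes grow at most linearly. -/
def S_GRO : Prop := ∀ (γ θ : ℝ) (x : ℤ → ℝ), 0 < γ → 0 < θ → θ < 1 → Nodes γ θ x →
  ∃ A : ℝ, 1 ≤ A ∧ ∀ n, |x n| ≤ A * (1 + |(n : ℝ)|)

/-- WUP. Multiplication by a power of `|x|` stays in the class. -/
def S_WUP : Prop := ∀ (γ : ℝ), 0 < γ → ∀ K : ℕ, ∃ K' : ℕ, ∀ w, Slope K w → Slope K' (up γ w)

/-- WGR. Growth and continuity of the averages. -/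
def S_WGR : Prop := (∀ K : ℕ, ∃ (C : ℝ) (k : ℕ), 0 ≤ C ∧ ∀ w, Slope K w → ∀ y,
    av w y ≤ C * w 1 * (1 + |y|) ^ k ∧ av2 w y ≤ C * w 1 * (1 + |y|) ^ k) ∧
  ∀ K w, Slope K w → Continuous (av w) ∧ Continuous (av2 w)

/-- WAV. Averages of slope weights, far out: `av w y = (k0 + o(1)) w y`, `av2 w y = O(w y)`. -/
def S_WAV : Prop := ∀ (K : ℕ), ∃ C : ℝ, 0 ≤ C ∧ ∀ w, Slope K w → ∀ y, 1 ≤ |y| →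
  av w y ≤ (k0 + C / |y|) * w y ∧ (k0 - C / |y|) * w y ≤ av w y ∧ av2 w y ≤ C * w y

/-- SLO. Comparison of the two coefficients far out (uses WAV, WUP). -/
def S_SLO : Prop := ∀ (K : ℕ) (γ δ : ℝ), 0 < γ → 0 < δ → ∃ M : ℝ, 1 ≤ M ∧ ∀ w, Slope K w →
  ∀ t y, M ≤ |t| → |y - t| ≤ 1 →
    PP δ γ w y ≤ (1 + δ) ^ 2 * k0 * (w t * |t| ^ (2 * γ)) ∧ k0 * w t ≤ (1 + δ) * av w y

/-- INT. One interval between two nodes (uses WIR, SLO). Here `δ = (1 - θ) / 4`. -/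
def S_INT : Prop := ∀ (γ θ : ℝ) (x : ℤ → ℝ), 0 < γ → 0 < θ → θ < 1 → Nodes γ θ x →
  ∀ K : ℕ, ∃ M C : ℝ, 1 ≤ M ∧ 0 ≤ C ∧ ∀ w, Slope K w →
    ∀ (f f' : ℝ → ℂ), (∀ x, HasDerivAt f (f' x) x) → Continuous f' →
    ∀ n, (M ≤ x n ∨ x (n + 1) ≤ -M) →
      ∫ t in x n..x (n + 1), PP ((1 - θ) / 4) γ w t * ‖f t‖ ^ 2 ≤
        θ * (1 / (4 * π ^ 2)) * (∫ t in x n..x (n + 1), av w t * ‖f' t‖ ^ 2) +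
        C * (up γ w (x n) * ‖f (x n)‖ ^ 2 + up γ w (x (n + 1)) * ‖f (x (n + 1))‖ ^ 2)

/-- SID. The inequality of one side, summed over all intervals (uses INT, WGR). -/
def S_SID : Prop := ∀ (γ θ : ℝ) (x : ℤ → ℝ), 0 < γ → 0 < θ → θ < 1 → Nodes γ θ x →
  ∀ K : ℕ, ∃ C : ℝ, 0 ≤ C ∧ ∀ w, Slope K w → ∀ (f : 𝓢(ℝ, ℂ)) (B : ℝ),
    (∀ n : ℤ, (1 + |(n : ℝ)|) ^ 2 * (up γ w (x n) * ‖f (x n)‖ ^ 2) ≤ B) →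
      ∫ t, PP ((1 - θ) / 4) γ w t * ‖f t‖ ^ 2 ≤
        θ * (1 / (4 * π ^ 2)) * (∫ t, av w t * ‖deriv f t‖ ^ 2) +
        C * B + C * w 1 * ∫ t, ‖f t‖ ^ 2

/-! ### The windowed Fourier transform -/

/-- `|V f (x, ξ)|²`, `V f (x, ξ) = ∫ f y exp (-π (y - x)²) exp (-2 π i y ξ) dy` -/
noncomputable def Ph (f : ℝ → ℂ) (x ξ : ℝ) : ℝ :=
  ‖𝓕 (fun y : ℝ => f y * (Real.exp (-π * (y - x) ^ 2) : ℂ)) ξ‖ ^ 2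

/-- STA. Plancherel in the frequency for fixed position. -/
def S_STA : Prop := ∀ (f : 𝓢(ℝ, ℂ)) (x : ℝ),
  Integrable (fun ξ => Ph f x ξ) ∧ Integrable (fun ξ => ξ ^ 2 * Ph f x ξ) ∧
  (∫ ξ, Ph f x ξ = ∫ y, ‖f y‖ ^ 2 * ker (y - x)) ∧
  ∀ δ : ℝ, 0 < δ → (1 / (4 * π ^ 2)) * (∫ y, ‖deriv f y‖ ^ 2 * ker (y - x)) ≤
    (1 + δ) * (∫ ξ, ξ ^ 2 * Ph f x ξ) + (1 + 1 / δ) * ∫ y, ‖f y‖ ^ 2 * ((y - x) ^ 2 * ker (y - x))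

/-- STB. The symmetry of the Gaussian window, and joint continuity. -/
def S_STB : Prop := ∀ (f : 𝓢(ℝ, ℂ)),
  (∀ x ξ : ℝ, Ph (𝓕 f : 𝓢(ℝ, ℂ)) ξ (-x) = Ph f x ξ) ∧
  Continuous fun z : ℝ × ℝ => Ph f z.1 z.2

/-- AWP. The anti-Wick inequality (uses STA, STB). -/
def S_AWP : Prop := ∀ (f : 𝓢(ℝ, ℂ)) (w₁ a₁ w₂ a₂ : ℝ → ℝ),
  Continuous w₁ → Continuous a₁ → Continuous w₂ → Continuous a₂ →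
  (∀ x, 0 ≤ w₁ x) → (∀ x, 0 ≤ a₁ x) → (∀ x, 0 ≤ w₂ x) → (∀ x, 0 ≤ a₂ x) →
  PolyGr w₁ → PolyGr a₁ → PolyGr w₂ → PolyGr a₂ →
  (∀ x ξ, w₁ x * ξ ^ 2 + w₂ ξ * x ^ 2 ≤ a₁ x + a₂ ξ) → ∀ δ : ℝ, 0 < δ →
  (1 / (4 * π ^ 2)) * ((∫ y, av w₁ y * ‖deriv f y‖ ^ 2) +
      ∫ y, av w₂ y * ‖deriv (𝓕 f : 𝓢(ℝ, ℂ)) y‖ ^ 2) ≤
    (∫ y, ((1 + δ) * av a₁ y + (1 + 1 / δ) * av2 w₁ y) * ‖f y‖ ^ 2) +
    ∫ y, ((1 + δ) * av a₂ y + (1 + 1 / δ) * av2 w₂ y) * ‖(𝓕 f : 𝓢(ℝ, ℂ)) y‖ ^ 2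

/-! ### The tail inequality -/

/-- `min (1, |x|^α / N)` -/
noncomputable def cut (α N x : ℝ) : ℝ := min 1 (|x| ^ α / N)

/-- WTS. The two weights used. For `α ≤ 1`: `w₁ x = β |x|^(2 (1 - α)) cut^(2 r)`, `w₂ = cut^(2 r)`;
for `α ≥ 1`: `w₁ = cut^(2 r)`, `w₂ ξ = α |ξ|^(2 (1 - β)) cut^(2 r)`. The first inequality is the
tangent line inequality for `t ↦ t^β` together with the monotonicity of `min 1 (s / N)`. -/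
def S_WTS : Prop := ∀ (α β : ℝ), 0 < α → α * β = 1 → ∀ r : ℕ, ∃ K : ℕ, ∀ N : ℝ, 1 ≤ N →
  ∃ w₁ w₂ : ℝ → ℝ, Slope K w₁ ∧ Slope K w₂ ∧
    (∀ x ξ, w₁ x * ξ ^ 2 + w₂ ξ * x ^ 2 ≤ up α w₁ x + up β w₂ ξ) ∧
    (∀ x, 1 ≤ |x| → N ≤ |x| ^ α → 1 ≤ up α w₁ x) ∧
    (∀ ξ, 1 ≤ |ξ| → N ≤ |ξ| → 1 ≤ up β w₂ ξ) ∧
    (∀ x, up α w₁ x ≤ (α + β) * (1 + |x|) ^ (2 + 2 * α) * cut α N x ^ (2 * r)) ∧
    (∀ ξ, up β w₂ ξ ≤ (α + β) * (1 + |ξ|) ^ (2 + 2 * β) * cut 1 N ξ ^ (2 * r)) ∧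
    w₁ 1 ≤ (α + β) * (1 / N) ^ (2 * r) ∧ w₂ 1 ≤ (α + β) * (1 / N) ^ (2 * r)

/-- TAI. The tail inequality (uses SID twice, AWP, WTS, WUP, WGR, SLO, GRO). -/
def S_TAI : Prop := ∀ (α β θ : ℝ) (x y : ℤ → ℝ), 0 < α → α * β = 1 → 0 < θ → θ < 1 →
  Nodes α θ x → Nodes β θ y → ∃ b e : ℕ, ∀ r : ℕ, ∃ C M : ℝ, 0 ≤ C ∧ 1 ≤ M ∧
    ∀ (N : ℝ), 1 ≤ N → ∀ (f : 𝓢(ℝ, ℂ)) (B : ℝ), 0 ≤ B →
      (∀ n, dw b e N r n * ‖f (x n)‖ ≤ B) →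
      (∀ n, dw b e N r n * ‖(𝓕 f : 𝓢(ℝ, ℂ)) (y n)‖ ≤ B) →
      (∫ t in {t : ℝ | M ≤ |t| ∧ N ≤ |t| ^ α}, ‖f t‖ ^ 2) +
        (∫ s in {s : ℝ | M ≤ |s| ∧ N ≤ |s|}, ‖(𝓕 f : 𝓢(ℝ, ℂ)) s‖ ^ 2) ≤
        C * (B ^ 2 + (1 / N) ^ (2 * r) * ∫ t, ‖f t‖ ^ 2)

/-! ### Local Fourier expansions -/

/-- ATO. Atoms `φ (k, l) x = θ (x - k/4) exp (2 π i l x)` and coefficients
`c (k, l) f = ∫ f χ (· - k/4) exp (-2 π i l ·)`, where `χ (x) = σ (4 x + 1) - σ (4 x)`,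
`σ = Real.smoothTransition` (so `∑_k χ (x - k/4) = 1`, support in `[-1/4, 1/4]`), `θ = 1` on
`[-1/4, 1/4]`, support in `[-1/2, 1/2]`; Poisson summation. -/
def IsAtoms (φ : ℤ × ℤ → 𝓢(ℝ, ℂ)) (c : ℤ × ℤ → 𝓢(ℝ, ℂ) →ₗ[ℂ] ℂ) : Prop :=
  (∀ f x, HasSum (fun a => c a f * φ a x) (f x)) ∧
  (∀ m n : ℕ, ∃ (C : ℝ) (k : ℕ), ∀ a, SchwartzMap.seminorm ℂ m n (φ a) ≤
    C * (1 + |(a.1 : ℝ)| + |(a.2 : ℝ)|) ^ k) ∧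
  (∃ C : ℝ, 0 ≤ C ∧ ∀ a f, 2 ≤ |a.1| →
    ‖c a f‖ ^ 2 ≤ C * ∫ t in {t : ℝ | |(a.1 : ℝ)| / 8 ≤ |t|}, ‖f t‖ ^ 2) ∧
  ∀ r : ℕ, ∃ C : ℝ, 0 ≤ C ∧ ∀ a (f : 𝓢(ℝ, ℂ)), ‖c a f‖ ^ 2 ≤
    C * ((∫ s in {s : ℝ | |(a.2 : ℝ)| / 2 ≤ |s|}, ‖(𝓕 f : 𝓢(ℝ, ℂ)) s‖ ^ 2) +
      (1 / (1 + |(a.2 : ℝ)|)) ^ (2 * r) * ∫ t, ‖f t‖ ^ 2)

def S_ATO : Prop := ∃ (φ : ℤ × ℤ → 𝓢(ℝ, ℂ)) (c : ℤ × ℤ → 𝓢(ℝ, ℂ) →ₗ[ℂ] ℂ), IsAtoms φ c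

/-- windows: `∑_k χ (x - k/4) = 1`, `χ` supported in `[-1/4, 1/4]`, `θ = 1` there -/
def IsWin (χ θ : ℝ → ℝ) : Prop :=
  ContDiff ℝ (⊤ : ℕ∞) χ ∧ ContDiff ℝ (⊤ : ℕ∞) θ ∧ (∀ x, 1 / 4 ≤ |x| → χ x = 0) ∧
    (∀ x, 1 / 2 ≤ |x| → θ x = 0) ∧ (∀ x, |x| ≤ 1 / 4 → θ x = 1) ∧
    ∀ x, HasSum (fun k : ℤ => χ (x - k / 4)) 1

/-- WIN. -/
def S_WIN : Prop := ∃ χ θ : ℝ → ℝ, IsWin χ θ

/-- the atoms and coefficients belonging to the windows -/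
def AtForm (χ θ : ℝ → ℝ) (φ : ℤ × ℤ → 𝓢(ℝ, ℂ)) (c : ℤ × ℤ → 𝓢(ℝ, ℂ) →ₗ[ℂ] ℂ) : Prop :=
  (∀ a x, φ a x = (θ (x - a.1 / 4) : ℂ) * Complex.exp (2 * π * Complex.I * a.2 * x)) ∧
  ∀ a f, c a f = ∫ y : ℝ, f y * ((χ (y - a.1 / 4) : ℂ) * Complex.exp (-2 * π * Complex.I * a.2 * y))

/-- AT1. Existence of atoms and coefficients with these formulas, bounds for the seminorms. -/
def S_AT1 : Prop := ∀ χ θ : ℝ → ℝ, IsWin χ θ → ∃ φ c, AtForm χ θ φ c ∧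
  ∀ m n : ℕ, ∃ (C : ℝ) (k : ℕ), ∀ a, SchwartzMap.seminorm ℂ m n (φ a) ≤
    C * (1 + |(a.1 : ℝ)| + |(a.2 : ℝ)|) ^ k

/-- AT2. The expansion (Poisson summation). -/
def S_AT2 : Prop := ∀ χ θ φ c, IsWin χ θ → AtForm χ θ φ c →
  ∀ f x, HasSum (fun a => c a f * φ a x) (f x)

/-- AT3. The bounds for the coefficients. -/
def S_AT3 : Prop := ∀ χ θ φ c, IsWin χ θ → AtForm χ θ φ c →
  (∃ C : ℝ, 0 ≤ C ∧ ∀ a f, 2 ≤ |a.1| →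
    ‖c a f‖ ^ 2 ≤ C * ∫ t in {t : ℝ | |(a.1 : ℝ)| / 8 ≤ |t|}, ‖f t‖ ^ 2) ∧
  ∀ r : ℕ, ∃ C : ℝ, 0 ≤ C ∧ ∀ a (f : 𝓢(ℝ, ℂ)), ‖c a f‖ ^ 2 ≤
    C * ((∫ s in {s : ℝ | |(a.2 : ℝ)| / 2 ≤ |s|}, ‖(𝓕 f : 𝓢(ℝ, ℂ)) s‖ ^ 2) +
      (1 / (1 + |(a.2 : ℝ)|)) ^ (2 * r) * ∫ t, ‖f t‖ ^ 2)

/-! ### The space of rapidly decreasing sequences -/

/-- rapidly decreasing two-sided sequences, as a submodule of all sequences -/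
def rapidSub : Submodule ℂ (ℤ → ℂ) where
  carrier := {c | ∀ k : ℕ, ∃ C : ℝ, ∀ n : ℤ, (1 + |(n : ℝ)|) ^ k * ‖c n‖ ≤ C}
  add_mem' := by
    intro c d hc hd k
    obtain ⟨C, hC⟩ := hc k
    obtain ⟨D, hD⟩ := hd k
    refine ⟨C + D, fun n => ?_⟩
    have h := norm_add_le (c n) (d n)
    have h0 : 0 ≤ (1 + |(n : ℝ)|) ^ k := by positivity
    calc (1 + |(n : ℝ)|) ^ k * ‖(c + d) n‖ ≤ (1 + |(n : ℝ)|) ^ k * (‖c n‖ + ‖d n‖) := by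
          gcongr; exact h
      _ ≤ C + D := by rw [mul_add]; exact add_le_add (hC n) (hD n)
  zero_mem' := by
    intro k
    exact ⟨0, fun n => by simp⟩
  smul_mem' := by
    intro a c hc k
    obtain ⟨C, hC⟩ := hc k
    refine ⟨‖a‖ * C, fun n => ?_⟩
    have : (1 + |(n : ℝ)|) ^ k * ‖(a • c) n‖ = ‖a‖ * ((1 + |(n : ℝ)|) ^ k * ‖c n‖) := by
      rw [Pi.smul_apply, norm_smul]; ring
    rw [this]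
    exact mul_le_mul_of_nonneg_left (hC n) (norm_nonneg a)

/-- The Frechet space `𝔰` of rapidly decreasing sequences indexed by `ℤ`; its topology is given by
the seminorms `sup_n (1 + |n|)^k |c_n|`. -/
def Rapid : Type := rapidSub

namespace Rapid

noncomputable instance : AddCommGroup Rapid := inferInstanceAs (AddCommGroup rapidSub)
noncomputable instance : Module ℂ Rapid := inferInstanceAs (Module ℂ rapidSub)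
instance : CoeFun Rapid (fun _ => ℤ → ℂ) := ⟨fun c => c.1⟩

theorem bdd (c : Rapid) (k : ℕ) :
    BddAbove (Set.range fun n : ℤ => (1 + |(n : ℝ)|) ^ k * ‖c n‖) := by
  obtain ⟨C, hC⟩ := c.2 k
  exact ⟨C, by rintro _ ⟨n, rfl⟩; exact hC n⟩

@[simp] theorem add_apply (c d : Rapid) (n : ℤ) : (c + d) n = c n + d n := rfl
@[simp] theorem smul_apply (a : ℂ) (c : Rapid) (n : ℤ) : (a • c) n = a * c n := rfl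
@[simp] theorem zero_apply (n : ℤ) : (0 : Rapid) n = 0 := rfl

/-- the seminorm `sup_n (1 + |n|)^k |c_n|` -/
noncomputable def sn (k : ℕ) : Seminorm ℂ Rapid where
  toFun c := ⨆ n : ℤ, (1 + |(n : ℝ)|) ^ k * ‖c n‖
  map_zero' := by simp
  add_le' c d := by
    refine ciSup_le fun n => ?_
    have h0 : 0 ≤ (1 + |(n : ℝ)|) ^ k := by positivity
    calc (1 + |(n : ℝ)|) ^ k * ‖(c + d) n‖ ≤ (1 + |(n : ℝ)|) ^ k * (‖c n‖ + ‖d n‖) := by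
          gcongr; exact norm_add_le _ _
      _ ≤ _ := by
          rw [mul_add]
          exact add_le_add (le_ciSup (bdd c k) n) (le_ciSup (bdd d k) n)
  neg' c := by
    congr 1
    ext n
    have : (-c : Rapid) n = -(c n) := rfl
    rw [this, norm_neg]
  smul' a c := by
    have : ∀ n : ℤ, (1 + |(n : ℝ)|) ^ k * ‖(a • c) n‖ = ‖a‖ * ((1 + |(n : ℝ)|) ^ k * ‖c n‖) := by
      intro n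
      rw [smul_apply, norm_mul]; ring
    simp only [this]
    exact (Real.mul_iSup_of_nonneg (norm_nonneg a) _).symm

/-- the family of seminorms of `𝔰` -/
noncomputable def fam : SeminormFamily ℂ Rapid ℕ := fun k => sn k

noncomputable instance : TopologicalSpace Rapid := fam.moduleFilterBasis.topology

theorem withSeminorms : WithSeminorms fam := ⟨rfl⟩

instance : IsTopologicalAddGroup Rapid := withSeminorms.topologicalAddGroup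

theorem le_sn (c : Rapid) (k : ℕ) (n : ℤ) : (1 + |(n : ℝ)|) ^ k * ‖c n‖ ≤ sn k c :=
  le_ciSup (bdd c k) n

theorem sn_le (c : Rapid) (k : ℕ) (B : ℝ) (h : ∀ n : ℤ, (1 + |(n : ℝ)|) ^ k * ‖c n‖ ≤ B) :
    sn k c ≤ B := ciSup_le h

end Rapid

/-! ### The left inverse -/

/-- EXT. Hahn-Banach. -/
def S_EXT : Prop := ∀ (E : Type) [AddCommGroup E] [Module ℂ E] (Y : Type) [NormedAddCommGroup Y]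
  [NormedSpace ℂ Y] (T : E →ₗ[ℂ] Y) (l : E →ₗ[ℂ] ℂ) (D : ℝ), 0 ≤ D → (∀ v, ‖l v‖ ≤ D * ‖T v‖) →
  ∃ Ψ : Y →L[ℂ] ℂ, ‖Ψ‖ ≤ D ∧ ∀ v, Ψ (T v) = l v

/-- FUN. Extension of one coefficient functional to `𝔰 × 𝔰` (uses EXT; `Y` is a space of bounded
functions on `ℤ ⊕ ℤ`). -/
def S_FUN : Prop := ∀ (x y : ℤ → ℝ),
  (∀ f : 𝓢(ℝ, ℂ), (fun n => f (x n)) ∈ rapidSub ∧ (fun n => (𝓕 f : 𝓢(ℝ, ℂ)) (y n)) ∈ rapidSub) →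
  ∀ (b e r : ℕ) (N D : ℝ), 1 ≤ N → 0 ≤ D → ∀ l : 𝓢(ℝ, ℂ) →ₗ[ℂ] ℂ,
    (∀ (f : 𝓢(ℝ, ℂ)) (B : ℝ), 0 ≤ B → (∀ n, dw b e N r n * ‖f (x n)‖ ≤ B) →
      (∀ n, dw b e N r n * ‖(𝓕 f : 𝓢(ℝ, ℂ)) (y n)‖ ≤ B) → ‖l f‖ ≤ D * B) →
    ∃ m : (Rapid × Rapid) →ₗ[ℂ] ℂ,
      (∀ (c : Rapid × Rapid) (B : ℝ), 0 ≤ B → (∀ n, dw b e N r n * ‖c.1 n‖ ≤ B) →
        (∀ n, dw b e N r n * ‖c.2 n‖ ≤ B) → ‖m c‖ ≤ D * B) ∧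
      ∀ (f : 𝓢(ℝ, ℂ)) (c : Rapid × Rapid), (∀ n, c.1 n = f (x n)) →
        (∀ n, c.2 n = (𝓕 f : 𝓢(ℝ, ℂ)) (y n)) → m c = l f

/-- SUM. Summation of atoms with rapidly decreasing coefficients: a continuous linear map into the
Schwartz space. -/
def S_SUM : Prop := ∀ (φ : ℤ × ℤ → 𝓢(ℝ, ℂ)) (m : ℤ × ℤ → (Rapid × Rapid) →ₗ[ℂ] ℂ),
  (∀ p q : ℕ, ∃ (C : ℝ) (k : ℕ), ∀ a, SchwartzMap.seminorm ℂ p q (φ a) ≤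
    C * (1 + |(a.1 : ℝ)| + |(a.2 : ℝ)|) ^ k) →
  (∀ j : ℕ, ∃ (C : ℝ) (k : ℕ), ∀ a c, ‖m a c‖ ≤
    C * (1 / (1 + |(a.1 : ℝ)| + |(a.2 : ℝ)|)) ^ j * (Rapid.sn k c.1 + Rapid.sn k c.2)) →
  ∃ L : (Rapid × Rapid) →L[ℂ] 𝓢(ℝ, ℂ), ∀ c x, HasSum (fun a => m a c * φ a x) (L c x)

/-- The key estimate for the coefficients: `N = (1 + |k| + |l|)^τ`. -/
def Key (x y : ℤ → ℝ) (c : ℤ × ℤ → 𝓢(ℝ, ℂ) →ₗ[ℂ] ℂ) (b e : ℕ) (τ : ℝ) : Prop :=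
  ∀ r : ℕ, ∃ D : ℝ, 0 ≤ D ∧ ∀ a (f : 𝓢(ℝ, ℂ)) (B : ℝ), 0 ≤ B →
    (∀ n, dw b e ((1 + |(a.1 : ℝ)| + |(a.2 : ℝ)|) ^ τ) r n * ‖f (x n)‖ ≤ B) →
    (∀ n, dw b e ((1 + |(a.1 : ℝ)| + |(a.2 : ℝ)|) ^ τ) r n * ‖(𝓕 f : 𝓢(ℝ, ℂ)) (y n)‖ ≤ B) →
    ‖c a f‖ ≤ D * B

/-- KEY. (uses TAI) -/
def S_KEY : Prop := ∀ (α β θ : ℝ) (x y : ℤ → ℝ), 0 < α → α * β = 1 → 0 < θ → θ < 1 →
  Nodes α θ x → Nodes β θ y →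
  (∃ (C : ℝ) (k : ℕ), ∀ (f : 𝓢(ℝ, ℂ)) (B : ℝ), 0 ≤ B →
    (∀ n : ℤ, (1 + |(n : ℝ)|) ^ k * ‖f (x n)‖ ≤ B) →
    (∀ n : ℤ, (1 + |(n : ℝ)|) ^ k * ‖(𝓕 f : 𝓢(ℝ, ℂ)) (y n)‖ ≤ B) →
    ∫ t, ‖f t‖ ^ 2 ≤ C * B ^ 2) →
  ∀ (φ : ℤ × ℤ → 𝓢(ℝ, ℂ)) (c : ℤ × ℤ → 𝓢(ℝ, ℂ) →ₗ[ℂ] ℂ), IsAtoms φ c →
  ∃ (b e : ℕ) (τ : ℝ), 0 < τ ∧ Key x y c b e τ

/-- DIA. The diagonal choice of `r` (uses FUN): functionals satisfying the hypothesis of SUM. -/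
def S_DIA : Prop := ∀ (x y : ℤ → ℝ),
  (∀ f : 𝓢(ℝ, ℂ), (fun n => f (x n)) ∈ rapidSub ∧ (fun n => (𝓕 f : 𝓢(ℝ, ℂ)) (y n)) ∈ rapidSub) →
  ∀ (c : ℤ × ℤ → 𝓢(ℝ, ℂ) →ₗ[ℂ] ℂ) (b e : ℕ) (τ : ℝ), 0 < τ → Key x y c b e τ →
  ∃ m : ℤ × ℤ → (Rapid × Rapid) →ₗ[ℂ] ℂ,
    (∀ j : ℕ, ∃ (C : ℝ) (k : ℕ), ∀ a c, ‖m a c‖ ≤
      C * (1 / (1 + |(a.1 : ℝ)| + |(a.2 : ℝ)|)) ^ j * (Rapid.sn k c.1 + Rapid.sn k c.2)) ∧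
    ∀ a (f : 𝓢(ℝ, ℂ)) (d : Rapid × Rapid), (∀ n, d.1 n = f (x n)) →
      (∀ n, d.2 n = (𝓕 f : 𝓢(ℝ, ℂ)) (y n)) → m a d = c a f

/-! ### The theorem -/

/-- `(p, q)`-supercritical pairs of sequences -/
def Supercritical (p q : ℝ) (x y : ℤ → ℝ) : Prop :=
  Monotone x ∧ Monotone y ∧ Tendsto (fun n => |x n|) cofinite atTop ∧
    Tendsto (fun n => |y n|) cofinite atTop ∧
    (∃ η < (1 / 2 : ℝ), ∀ᶠ n in cofinite, |x n| ^ (p - 1) * |x (n + 1) - x n| ≤ η) ∧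
    ∃ η < (1 / 2 : ℝ), ∀ᶠ n in cofinite, |y n| ^ (q - 1) * |y (n + 1) - y n| ≤ η

/-- `R` is the analysis operator of the pair -/
def IsAnalysis (x y : ℤ → ℝ) (R : 𝓢(ℝ, ℂ) →ₗ[ℂ] Rapid × Rapid) : Prop :=
  ∀ f n, (R f).1 n = f (x n) ∧ (R f).2 n = (𝓕 f : 𝓢(ℝ, ℂ)) (y n)

/-- FIN. Full positive answer (uses ATO, KEY, DIA, SUM). -/
def S_FIN : Prop := ∀ (p q : ℝ) (x y : ℤ → ℝ), 1 < p → 1 < q → 1 / p + 1 / q = 1 →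
  Supercritical p q x y → ∀ R : 𝓢(ℝ, ℂ) →ₗ[ℂ] Rapid × Rapid, IsAnalysis x y R →
  Topology.IsEmbedding R → ∃ L : (Rapid × Rapid) →L[ℂ] 𝓢(ℝ, ℂ), ∀ f, L (R f) = f

end Q249.SF
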